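import Mathlib
import Pool.Agent.X213.BalleanCoarse

set_option autoImplicit false

open Pool.Agent.X213 Pool.Agent.X213.Ballean

namespace Pool.Agent.Results.MP_bddfa7_gt.ProductSoBounded

universe u v

/-- Slowly oscillating functions. -/
def SlowlyOscillating {X : Type u} (b : Ballean X) (f : X → ℝ) : Prop :=
  ∀ E ∈ b.ent, ∀ ε : ℝ, 0 < ε → ∃ B, b.Bounded B ∧
    ∀ x ∉ B, Metric.ediam (f '' ball E x) < ENNReal.ofReal ε

/-- So-bounded balleans. -/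
def SoBounded {X : Type u} (b : Ballean X) : Prop :=
  ∀ f : X → ℝ, SlowlyOscillating b f → ∃ B, b.Bounded B ∧ ∃ M : ℝ, ∀ x ∉ B, |f x| ≤ M

/-- The product of any two so-bounded balleans is so-bounded. -/
theorem result (X : Type u) (Y : Type v) (b : Ballean X) (c : Ballean Y)
    (hb : SoBounded b) (hc : SoBounded c) : SoBounded (Ballean.prod b c) := by
  intro f hf
  obtain ⟨-, ⟨-, -, p₁, -⟩, -⟩ := hf _ (Ballean.prod b c).diag_mem 1 one_pos
  -- the variation of `f` on balls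
  have hv : ∀ G ∈ (Ballean.prod b c).ent, ∀ r : ℝ, 0 < r → ∃ B, (Ballean.prod b c).Bounded B ∧
      ∀ p ∉ B, ∀ q ∈ ball G p, ∀ q' ∈ ball G p, |f q - f q'| ≤ r := by
    intro G hG r hr
    obtain ⟨B, hB, h⟩ := hf G hG r hr
    exact ⟨B, hB, fun p hp q hq q' hq' =>
      Bal.abs_le_of_ediam hr.le (h p hp).le ⟨q, hq, rfl⟩ ⟨q', hq', rfl⟩⟩
  refine prod_main f p₁ ?_ ?_ ?_
  · intro G hG
    obtain ⟨B, hB, h⟩ := hv G hG 1 one_pos
    exact ⟨B, hB, 1, h⟩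
  · intro φ hφ
    apply hb φ
    intro E hE ε hε
    obtain ⟨B, hB, h⟩ := hv _ ⟨E, hE, _, c.diag_mem, subset_rfl⟩ (ε / 2) (half_pos hε)
    obtain ⟨C, hC, h'⟩ := vary_left hφ (half_pos hε).le hB h
    refine ⟨C, hC, fun x hx => lt_of_le_of_lt (Bal.ediam_le_of ?_)
      ((ENNReal.ofReal_lt_ofReal_iff hε).mpr (half_lt_self hε))⟩
    rintro _ ⟨a, ha, rfl⟩ _ ⟨a', ha', rfl⟩
    exact h' x hx a ha a' ha'
  · intro φ hφ
    apply hc φ
    intro F hF ε hε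
    obtain ⟨B, hB, h⟩ := hv _ ⟨_, b.diag_mem, F, hF, subset_rfl⟩ (ε / 2) (half_pos hε)
    obtain ⟨C, hC, h'⟩ := vary_right hφ (half_pos hε).le hB h
    refine ⟨C, hC, fun x hx => lt_of_le_of_lt (Bal.ediam_le_of ?_)
      ((ENNReal.ofReal_lt_ofReal_iff hε).mpr (half_lt_self hε))⟩
    rintro _ ⟨a, ha, rfl⟩ _ ⟨a', ha', rfl⟩
    exact h' x hx a ha a' ha'

end Pool.Agent.Results.MP_bddfa7_gt.ProductSoBounded
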